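import Pool.Agent.J6H15.SQ.Two

set_option autoImplicit false

/-!
# MP_c702b2_nt: the sum of the squares of the gaps in sequential random models of the primes

The integers are decided one after the other.  No `m` with a prime factor `q ∈ P`, `q ≤ z(m)`, is chosen; the
conditional probability of choosing `m + 1` (without such prime factors) given the past is asymptotic to
`W / log m`, `W = ∏ (1 - 1/q)⁻¹` over the primes `q ∈ P`, `q ≤ z(m + 1)`.  No independence and no rate is assumed,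
and `z` is nondecreasing.  Let `S(x)` be the sum of the squares of the gaps between consecutive chosen integers `≤ x`.

(1) If `z(n) = (log n)^(o(1))` (and `P` is any set) then in all these models, almost surely, `S(x) ~ 2 x log x`
(Heath-Brown's conjecture for the primes).
(2) If `P` contains all primes and `z(n) ≤ (log n)^θ`, `θ < 1/2`, then in all these models, almost surely, `S(x)` is of
the order `x log x`.

Proof.  Let `a(n)` be the distance from `n` to the last chosen integer.  The sum over `n < x` of `1_{n+1 chosen} (a(n)+1)`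
is `x - a(x)`; by an exponential inequality for martingales the sum of `P(n+1 chosen | past) (a(n) + 1)` is `x + o(x)`.
As the densities are `wt(n+1) / log n`, the sum of `wt(n+1) (a(n) + 1)` is asymptotic to `x log x`.  By partial
summation inside each gap and the fundamental lemma of the sieve, the sum of `(wt(n+1) - 1) (a(n) + 1)` is at most
`ε S(x) + o(x log x)`, and the sum of `2 a(n) + 1` is `S(x) + a(x)²` up to a constant.  In (2) the linear sieve gives a
lower bound for the sum of `wt` over intervals longer than `(log x)^E`, `2 θ < E < 1`, so that the sum of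
`wt(n+1) (a(n) + 1)` is at least `c S(x) - o(x log x)`; the lower bound for `S(x)` is the inequality of Cauchy and
Schwarz.

Modules: `Pool/Agent/J6H15/SQ`, `Pool/Agent/J6H15/SM` (helper15), the exponential inequality of the starting library.
-/

open MeasureTheory Filter
open scoped Topology

namespace Pool.Agent.Results.MP_c702b2_nt.SequentialModels

/-- `m` has no prime factor `q ∈ P`, `q ≤ z m` -/
def Rough (P : Set ℕ) (z : ℕ → ℕ) (m : ℕ) : Prop := ∀ q ∈ P, q.Prime → q ≤ z m → ¬ q ∣ m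

open Classical in
/-- `∏ (1 - 1/q)⁻¹` over the primes `q ≤ x` in `P` -/
noncomputable def W (P : Set ℕ) (x : ℕ) : ℝ :=
  ∏ q ∈ (Finset.Icc 1 x).filter (fun q => q.Prime ∧ q ∈ P), (1 - (q : ℝ)⁻¹)⁻¹

/-- a sequential random model of the primes sieved by the primes `q ∈ P`, `q ≤ z(m)`; `C n` is the event that
`n` is chosen -/
structure IsModel {Ω : Type} [mΩ : MeasurableSpace Ω] (μ : Measure Ω) (ℱ : Filtration ℕ mΩ)
    (C : ℕ → Set Ω) (P : Set ℕ) (z : ℕ → ℕ) : Prop where
  /-- whether `n` is chosen is known at the time `n` -/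
  adapted : ∀ n, MeasurableSet[ℱ n] (C n)
  /-- no `n` with a prime factor `q ∈ P`, `q ≤ z n`, is chosen -/
  sieved : ∀ n, ¬ Rough P z n → C n = ∅
  /-- the conditional probability of `C (n + 1)` given `ℱ n` is asymptotic to `W P (z (n + 1)) / log n`
  along the `n` with `Rough P z (n + 1)` -/
  density : ∀ᵐ ω ∂μ, Tendsto (fun n : ℕ =>
    (μ[(C (n + 1)).indicator (fun _ => (1 : ℝ)) | ℱ n]) ω * Real.log n / W P (z (n + 1)))
    (atTop ⊓ 𝓟 {n : ℕ | Rough P z (n + 1)}) (𝓝 1)

/-- the greatest element of `T` which is less than `m` -/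
noncomputable def pre (T : Set ℕ) (m : ℕ) : ℕ := sSup {l | l ∈ T ∧ l < m}

open Classical in
/-- `S(x)`: the sum of `(m - pre T m)²` over the `m ∈ T`, `m ≤ x`, which are not the first element of `T` -/
noncomputable def S (T : Set ℕ) (x : ℕ) : ℝ :=
  ∑ m ∈ (Finset.range (x + 1)).filter (fun m => m ∈ T ∧ ∃ l ∈ T, l < m), ((m : ℝ) - pre T m) ^ 2

lemma pre_eq (T : Set ℕ) (n : ℕ) (h : ∃ l ∈ T, l < n + 1) :
    ((n + 1 : ℕ) : ℝ) - pre T (n + 1) = (Pool.Agent.J6H15.SQ.ag T n : ℝ) + 1 := by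
  obtain ⟨h1, h2, h3⟩ := Pool.Agent.J6H15.SQ.ag_spec T n
  obtain ⟨l, hl, hln⟩ := h
  have h4 : l ≤ n - Pool.Agent.J6H15.SQ.ag T n := by
    by_contra hcon
    exact h3 l (by omega) (by omega) hl
  have h5 : n - Pool.Agent.J6H15.SQ.ag T n ∈ T := by
    rcases h2 with h2 | h2
    · rw [h2]
      have : l = 0 := by omega
      rw [← this]
      exact hl
    · exact h2
  have h6 : pre T (n + 1) = n - Pool.Agent.J6H15.SQ.ag T n := by
    unfold pre
    apply le_antisymm
    · refine csSup_le (s := {l | l ∈ T ∧ l < n + 1}) ⟨l, hl, hln⟩ ?_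
      rintro j ⟨h7, h8⟩
      by_contra hcon
      exact h3 j (by omega) (by omega) h7
    · apply le_csSup
      · exact ⟨n + 1, fun j hj => hj.2.le⟩
      · exact ⟨h5, by omega⟩
  rw [h6, Nat.cast_sub h1]
  push_cast
  ring

open Classical in
lemma S_Q (T : Set ℕ) (m1 : ℕ) (hm1 : m1 ∈ T) (x : ℕ) :
    S T x ≤ Pool.Agent.J6H15.SQ.Q T x ∧
      Pool.Agent.J6H15.SQ.Q T x ≤ S T x + ∑ n ∈ Finset.range m1, ((n : ℝ) + 1) ^ 2 := by
  have e1 : S T x = ∑ n ∈ Finset.range x, if (n + 1 ∈ T ∧ ∃ l ∈ T, l < n + 1) then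
      ((Pool.Agent.J6H15.SQ.ag T n : ℝ) + 1) ^ 2 else 0 := by
    unfold S
    rw [Finset.sum_filter, Finset.sum_range_succ']
    have e0 : ¬ (0 ∈ T ∧ ∃ l ∈ T, l < 0) := by
      rintro ⟨_, l, _, hl⟩
      omega
    rw [if_neg e0, add_zero]
    apply Finset.sum_congr rfl
    intro n _
    by_cases h : n + 1 ∈ T ∧ ∃ l ∈ T, l < n + 1
    · rw [if_pos h, if_pos h, pre_eq T n h.2]
    · rw [if_neg h, if_neg h]
  rw [e1]
  unfold Pool.Agent.J6H15.SQ.Q
  constructor
  · apply Finset.sum_le_sum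
    intro n _
    by_cases h : n + 1 ∈ T
    · rw [if_pos h]
      split_ifs
      · exact le_rfl
      · positivity
    · rw [if_neg h, if_neg (fun h2 => h h2.1)]
  · have h1 : ∀ n ∈ Finset.range x, (if n + 1 ∈ T then ((Pool.Agent.J6H15.SQ.ag T n : ℝ) + 1) ^ 2 else 0) ≤
        (if (n + 1 ∈ T ∧ ∃ l ∈ T, l < n + 1) then ((Pool.Agent.J6H15.SQ.ag T n : ℝ) + 1) ^ 2 else 0) +
          if n < m1 then ((n : ℝ) + 1) ^ 2 else 0 := by
      intro n _
      have hag : (Pool.Agent.J6H15.SQ.ag T n : ℝ) ≤ n := by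
        exact_mod_cast (Pool.Agent.J6H15.SQ.ag_spec T n).1
      by_cases h : n + 1 ∈ T
      · by_cases h2 : ∃ l ∈ T, l < n + 1
        · rw [if_pos h, if_pos ⟨h, h2⟩]
          have : (0 : ℝ) ≤ if n < m1 then ((n : ℝ) + 1) ^ 2 else 0 := by
            split_ifs <;> positivity
          linarith
        · have h3 : n < m1 := by
            by_contra hcon
            exact h2 ⟨m1, hm1, by omega⟩
          rw [if_pos h, if_neg (fun h4 => h2 h4.2), if_pos h3, zero_add]
          gcongr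
      · rw [if_neg h, if_neg (fun h2 => h h2.1), zero_add]
        split_ifs <;> positivity
    refine (Finset.sum_le_sum h1).trans ?_
    rw [Finset.sum_add_distrib]
    have h2 : ∑ n ∈ Finset.range x, (if n < m1 then ((n : ℝ) + 1) ^ 2 else 0) ≤
        ∑ n ∈ Finset.range m1, ((n : ℝ) + 1) ^ 2 := by
      rw [← Finset.sum_filter]
      apply Finset.sum_le_sum_of_subset_of_nonneg
      · intro n hn
        rw [Finset.mem_filter] at hn
        rw [Finset.mem_range]
        exact hn.2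
      · intro n _ _
        positivity
    linarith

lemma lim_one {T : Set ℕ} (m1 : ℕ) (hm1 : m1 ∈ T)
    (h1 : Tendsto (fun x : ℕ => Pool.Agent.J6H15.SQ.Q T x / (x * Real.log x)) atTop (𝓝 2)) :
    Tendsto (fun x : ℕ => S T x / (2 * (x * Real.log x))) atTop (𝓝 1) := by
  obtain ⟨K, hK⟩ : ∃ K : ℝ, K = ∑ n ∈ Finset.range m1, ((n : ℝ) + 1) ^ 2 := ⟨_, rfl⟩
  have hden : Tendsto (fun x : ℕ => (x : ℝ) * Real.log x) atTop atTop :=
    tendsto_natCast_atTop_atTop.atTop_mul_atTop₀ Pool.Agent.J6H13.UM.logN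
  have h2 : Tendsto (fun x : ℕ => K / ((x : ℝ) * Real.log x)) atTop (𝓝 0) := tendsto_const_nhds.div_atTop hden
  have h3 := h1.sub h2
  rw [sub_zero] at h3
  have h4 : Tendsto (fun x : ℕ => S T x / (x * Real.log x)) atTop (𝓝 2) := by
    refine tendsto_of_tendsto_of_tendsto_of_le_of_le' h3 h1 ?_ ?_
    · filter_upwards [hden.eventually_gt_atTop 0] with x hx
      rw [← sub_div]
      apply div_le_div_of_nonneg_right _ hx.le
      have := (S_Q T m1 hm1 x).2
      rw [← hK] at this
      linarith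
    · filter_upwards [hden.eventually_gt_atTop 0] with x hx
      apply div_le_div_of_nonneg_right _ hx.le
      exact (S_Q T m1 hm1 x).1
  have h5 := h4.div_const 2
  rw [div_self (by norm_num)] at h5
  refine h5.congr fun x => ?_
  rw [div_div]
  ring_nf

/-- **The sum of the squares of the gaps in sequential random models.**  (1) Let `z` be nondecreasing with
`z(n) ≤ (log n)^δ` for every `δ > 0` and large `n`.  In every sequential random model sieved by the primes `q ∈ P`,
`q ≤ z(m)`, almost surely `S(x) / (2 x log x) → 1`.  (2) For every `θ < 1/2` there is `C` such that, if `P` contains all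
primes and the nondecreasing `z` is at most `(log n)^θ` for large `n`, in every such model, almost surely
`x log x / 50 ≤ S(x) ≤ C x log x` for large `x`. -/
theorem result :
    (∀ (P : Set ℕ) (z : ℕ → ℕ), Monotone z →
      (∀ δ : ℝ, 0 < δ → ∀ᶠ n : ℕ in atTop, (z n : ℝ) ≤ Real.log n ^ δ) →
      ∀ {Ω : Type} [mΩ : MeasurableSpace Ω] (μ : Measure Ω) [IsProbabilityMeasure μ]
        (ℱ : Filtration ℕ mΩ) (C : ℕ → Set Ω), IsModel μ ℱ C P z →
        ∀ᵐ ω ∂μ, Tendsto (fun x : ℕ => S {k | ω ∈ C k} x / (2 * (x * Real.log x))) atTop (𝓝 1)) ∧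
    (∀ θ : ℝ, θ < 1 / 2 → ∃ K : ℝ, 0 < K ∧ ∀ P : Set ℕ, (∀ q : ℕ, q.Prime → q ∈ P) →
      ∀ z : ℕ → ℕ, Monotone z → (∀ᶠ n : ℕ in atTop, (z n : ℝ) ≤ Real.log n ^ θ) →
      ∀ {Ω : Type} [mΩ : MeasurableSpace Ω] (μ : Measure Ω) [IsProbabilityMeasure μ]
        (ℱ : Filtration ℕ mΩ) (C : ℕ → Set Ω), IsModel μ ℱ C P z →
        ∀ᵐ ω ∂μ, ∀ᶠ x : ℕ in atTop, 1 / 50 * (x * Real.log x) ≤ S {k | ω ∈ C k} x ∧
          S {k | ω ∈ C k} x ≤ K * (x * Real.log x)) := by
  constructor
  · intro P z hmono hz Ω mΩ μ _ ℱ C hM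
    filter_upwards [Pool.Agent.J6H15.SQ.sq_main hM.adapted P z hmono hz hM.sieved hM.density] with ω hω
    obtain ⟨h1, m1, hm1⟩ := hω
    exact lim_one m1 hm1 h1
  · intro θ hθ
    obtain ⟨K, hK, H⟩ := Pool.Agent.J6H15.SQ.sq_up θ hθ
    refine ⟨K, hK, ?_⟩
    intro P hP z hz hzθ Ω mΩ μ _ ℱ C hM
    filter_upwards [H P hP z hz hzθ hM.adapted hM.sieved hM.density,
      Pool.Agent.J6H15.SQ.sq_low θ hθ P hP z hz hzθ hM.adapted hM.sieved hM.density] with ω h1 h2
    obtain ⟨h1, m1, hm1⟩ := h1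
    obtain ⟨K1, hK1⟩ : ∃ K : ℝ, K = ∑ n ∈ Finset.range m1, ((n : ℝ) + 1) ^ 2 := ⟨_, rfl⟩
    have hden : Tendsto (fun x : ℕ => (x : ℝ) * Real.log x) atTop atTop :=
      tendsto_natCast_atTop_atTop.atTop_mul_atTop₀ Pool.Agent.J6H13.UM.logN
    filter_upwards [h1, h2, hden.eventually_ge_atTop (1200 * |K1|)] with x h3 h4 h5
    obtain ⟨h6, h7⟩ := S_Q {k | ω ∈ C k} m1 hm1 x
    rw [← hK1] at h7
    have h8 := le_abs_self K1
    exact ⟨by linarith, h6.trans h3⟩

end Pool.Agent.Results.MP_c702b2_nt.SequentialModels
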